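import Mathlib
import Pool.Agent.X199.SirotaGroup

/-!
# A sequentially pseudocompact Boolean group which is not selectively sequentially pseudocompact
-/

open Topology Filter Set

namespace Pool.Agent.Results.MP_3c9c51_gt.BooleanExample

open Pool.Agent.X199

/-- Sequentially pseudocompact spaces: for every sequence of non-empty open sets `U n` there are an
infinite set `J` of indices and a point `x` such that every open neighbourhood of `x` meets `U n`
for all but finitely many `n` in `J`. -/
def SeqPseudocompact (X : Type*) [TopologicalSpace X] : Prop :=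
  ∀ U : ℕ → Set X, (∀ n, IsOpen (U n) ∧ (U n).Nonempty) →
    ∃ J : Set ℕ, J.Infinite ∧ ∃ x : X, ∀ W : Set X, IsOpen W → x ∈ W →
      {n ∈ J | W ∩ U n = ∅}.Finite

/-- Selectively sequentially pseudocompact spaces: for every sequence of non-empty open sets `U n`
one can pick points `x n ∈ U n` such that the sequence `x` has a convergent subsequence. -/
def SelSeqPseudocompact (X : Type*) [TopologicalSpace X] : Prop :=
  ∀ U : ℕ → Set X, (∀ n, IsOpen (U n) ∧ (U n).Nonempty) →
    ∃ x : ℕ → X, (∀ n, x n ∈ U n) ∧ ∃ φ : ℕ → ℕ, StrictMono φ ∧ ∃ l : X,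
      Tendsto (x ∘ φ) atTop (𝓝 l)

/-- A subspace of a power of the two-point space which projects onto all countable faces is
sequentially pseudocompact. -/
theorem seqPseudocompact_of_face {I : Type*} (S : Set (I → ZMod 2))
    (hS : ∀ C : Set I, C.Countable → ∀ z : I → ZMod 2, ∃ g ∈ S, ∀ β ∈ C, g β = z β) :
    SeqPseudocompact S := by
  intro U hU
  choose g hg using fun n => (hU n).2
  have hbox : ∀ n, ∃ E : Set I, E.Finite ∧ ∀ h : S, (∀ i ∈ E, h.1 i = (g n).1 i) → h ∈ U n := by
    intro n
    have h1 : U n ∈ 𝓝 (g n) := (hU n).1.mem_nhds (hg n)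
    rw [nhds_subtype_eq_comap, nhds_pi, mem_comap] at h1
    obtain ⟨V, hV, hVU⟩ := h1
    obtain ⟨E, hE, t, ht, hsub⟩ := Filter.mem_pi.1 hV
    refine ⟨E, hE, fun h hh => hVU (hsub fun i hi => ?_)⟩
    rw [hh i hi]
    exact mem_of_mem_nhds (ht i)
  choose E hE hEU using hbox
  let C : Set I := ⋃ n, E n
  have hC : C.Countable := countable_iUnion fun n => (hE n).countable
  have : Countable C := hC
  obtain ⟨y, φ, hφ, hlim⟩ := SeqCompactSpace.tendsto_subseq
    (fun n => (fun i : C => (g n).1 i : C → ZMod 2))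
  classical
  obtain ⟨x, hxS, hx⟩ := hS C hC (fun i => if h : i ∈ C then y ⟨i, h⟩ else 0)
  refine ⟨range φ, infinite_range_of_injective hφ.injective, ⟨x, hxS⟩, ?_⟩
  intro W hW hxW
  obtain ⟨D, hD, hDW⟩ : ∃ D : Set I, D.Finite ∧ ∀ h : S, (∀ i ∈ D, h.1 i = x i) → h ∈ W := by
    have h1 : W ∈ 𝓝 (⟨x, hxS⟩ : S) := hW.mem_nhds hxW
    rw [nhds_subtype_eq_comap, nhds_pi, mem_comap] at h1
    obtain ⟨V, hV, hVU⟩ := h1
    obtain ⟨D, hD, t, ht, hsub⟩ := Filter.mem_pi.1 hV
    refine ⟨D, hD, fun h hh => hVU (hsub fun i hi => ?_)⟩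
    rw [hh i hi]
    exact mem_of_mem_nhds (ht i)
  -- for large `k` the `φ k`-th point agrees with `x` on `D ∩ C`
  have h2 : ∀ᶠ k in atTop, ∀ i ∈ D, i ∈ C → (g (φ k)).1 i = x i := by
    rw [Filter.eventually_all_finite hD]
    intro i hi
    by_cases hiC : i ∈ C
    · have h3 := (tendsto_pi_nhds.1 hlim) ⟨i, hiC⟩
      rw [nhds_discrete, tendsto_pure] at h3
      filter_upwards [h3] with k hk _
      have h4 := hx i hiC
      rw [dif_pos hiC] at h4
      rw [h4, ← hk]
      rfl
    · filter_upwards with k h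
      exact absurd h hiC
  obtain ⟨K, hK⟩ := eventually_atTop.1 h2
  apply ((finite_Iio K).image φ).subset
  rintro n ⟨⟨k, rfl⟩, hempty⟩
  refine ⟨k, ?_, rfl⟩
  by_contra hk
  rw [mem_Iio, not_lt] at hk
  obtain ⟨h, hhS, hh⟩ := hS (C ∪ D) (hC.union hD.countable)
    (fun i => if i ∈ C then (g (φ k)).1 i else x i)
  have h5 : (⟨h, hhS⟩ : S) ∈ W ∩ U (φ k) := by
    constructor
    · apply hDW
      intro i hi
      have := hh i (Or.inr hi)
      show h i = x i
      rw [this]
      split_ifs with hiC
      · exact hK k hk i hi hiC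
      · rfl
    · apply hEU
      intro i hi
      have hiC : i ∈ C := mem_iUnion.2 ⟨_, hi⟩
      have := hh i (Or.inl hiC)
      simp only [if_pos hiC] at this
      exact this
  rw [hempty] at h5
  exact h5

/-- **Main theorem.**  There is (in ZFC) a Hausdorff Boolean topological group, namely a subgroup of
a power of the two-element group, which is sequentially pseudocompact and not selectively
sequentially pseudocompact; it has no non-trivial convergent sequences. -/
theorem result :
    ∃ G : AddSubgroup (ℝ → ZMod 2),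
      IsTopologicalAddGroup G ∧ T2Space G ∧ (∀ g : G, g + g = 0) ∧
      (∀ u : ℕ → G, Function.Injective u → ∀ l : G, ¬ Tendsto u atTop (𝓝 l)) ∧
      SeqPseudocompact G ∧ ¬ SelSeqPseudocompact G := by
  refine ⟨Sirota.G, inferInstance, inferInstance, ?_, Sirota.not_tendsto, ?_, ?_⟩
  · intro g
    apply Subtype.ext
    ext i
    exact CharTwo.add_self_eq_zero (g.1 i)
  · refine seqPseudocompact_of_face (Sirota.G : Set (ℝ → ZMod 2)) ?_
    intro C hC z
    obtain ⟨g, hg⟩ := Sirota.face C hC z
    exact ⟨g.1, g.2, hg⟩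
  · intro hsel
    let U : ℕ → Set Sirota.G := fun n =>
      {g | (∀ k < n, g.1 (k : ℝ) = 0) ∧ g.1 (n : ℝ) = 1}
    have hc : ∀ r : ℝ, Continuous fun g : Sirota.G => g.1 r := fun r =>
      (continuous_apply r).comp continuous_subtype_val
    have hU : ∀ n, IsOpen (U n) ∧ (U n).Nonempty := by
      intro n
      constructor
      · have h1 : U n = (⋂ k ∈ Iio n, (fun g : Sirota.G => g.1 (k : ℝ)) ⁻¹' {0}) ∩
            (fun g : Sirota.G => g.1 (n : ℝ)) ⁻¹' {1} := by
          ext g
          simp [U]
        rw [h1]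
        exact ((finite_Iio n).isOpen_biInter fun k _ => (isOpen_discrete _).preimage (hc _)).inter
          ((isOpen_discrete _).preimage (hc _))
      · obtain ⟨g, hg⟩ := Sirota.face (range (fun k : ℕ => (k : ℝ))) (countable_range _)
          (fun r => if r < n then 0 else 1)
        refine ⟨g, ?_, ?_⟩
        · intro k hk
          have hk' : (k : ℝ) < n := by exact_mod_cast hk
          rw [hg _ ⟨k, rfl⟩]
          exact if_pos hk'
        · rw [hg _ ⟨n, rfl⟩]
          exact if_neg (lt_irrefl _)
    obtain ⟨x, hx, φ, hφ, l, hl⟩ := hsel U hU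
    have hinj : Function.Injective x := by
      intro m n hmn
      by_contra hne
      rcases lt_or_gt_of_ne hne with h | h
      · have h1 := (hx m).2
        have h2 := (hx n).1 m h
        rw [hmn, h2] at h1
        exact absurd h1 (by decide)
      · have h1 := (hx n).2
        have h2 := (hx m).1 n h
        rw [← hmn, h2] at h1
        exact absurd h1 (by decide)
    exact Sirota.not_tendsto (x ∘ φ) (hinj.comp hφ.injective) l hl

end Pool.Agent.Results.MP_3c9c51_gt.BooleanExample
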